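import Pool.Agent.H76.ND.Targets2

/-! # MP_57ddd5_pr: KSM, the sum of the failure terms -/

namespace Pool.Agent.H86.ND2

open Finset
open Pool.Agent.H99.NS Pool.Agent.H22.LPP Pool.Agent.H95.INS Pool.Agent.H76.ND
open Pool.Agent.H97.NF (domN tile)

theorem bnd (k : ℕ) (c s : ℝ) (hc : 0 < c) (hs : 0 < s) :
    ∃ K : ℝ, 0 < K ∧ ∀ x : ℝ, 0 ≤ x → (1 + x) ^ k * Real.exp (-(c * x ^ s)) ≤ K := by
  set N := ⌈(k : ℝ) / s⌉₊ with hN
  refine ⟨2 ^ k * (1 + (N.factorial : ℝ) / c ^ N), by positivity, fun x hx => ?_⟩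
  have hy : 0 ≤ c * x ^ s := by positivity
  have hF : 0 ≤ (N.factorial : ℝ) / c ^ N := by positivity
  rcases le_total x 1 with h1 | h1
  · have e1 : (1 + x) ^ k ≤ 2 ^ k := pow_le_pow_left₀ (by linarith) (by linarith) k
    have e2 : Real.exp (-(c * x ^ s)) ≤ 1 := Real.exp_le_one_iff.mpr (by linarith)
    calc (1 + x) ^ k * Real.exp (-(c * x ^ s)) ≤ 2 ^ k * 1 :=
          mul_le_mul e1 e2 (Real.exp_pos _).le (by positivity)
      _ ≤ 2 ^ k * (1 + (N.factorial : ℝ) / c ^ N) := by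
        apply mul_le_mul_of_nonneg_left _ (by positivity)
        linarith
  · have e1 : (1 + x) ^ k ≤ 2 ^ k * x ^ k := by
      rw [← mul_pow]; exact pow_le_pow_left₀ (by linarith) (by linarith) k
    have e3 : x ^ k ≤ (x ^ s) ^ N := by
      rw [← Real.rpow_natCast, ← Real.rpow_natCast, ← Real.rpow_mul hx]
      apply Real.rpow_le_rpow_of_exponent_le h1
      have h2 : (k : ℝ) / s ≤ N := Nat.le_ceil _
      rw [div_le_iff₀ hs] at h2
      linarith [mul_comm (N : ℝ) s]
    have e4 : (c * x ^ s) ^ N / N.factorial ≤ Real.exp (c * x ^ s) :=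
      Real.pow_div_factorial_le_exp _ hy N
    have e5 : x ^ k * Real.exp (-(c * x ^ s)) ≤ (N.factorial : ℝ) / c ^ N := by
      rw [Real.exp_neg, ← div_eq_mul_inv, div_le_div_iff₀ (Real.exp_pos _) (by positivity)]
      rw [div_le_iff₀ (by positivity), mul_pow] at e4
      calc x ^ k * c ^ N ≤ (x ^ s) ^ N * c ^ N :=
            mul_le_mul_of_nonneg_right e3 (by positivity)
        _ = c ^ N * (x ^ s) ^ N := by ring
        _ ≤ _ := by linarith [e4]
    calc (1 + x) ^ k * Real.exp (-(c * x ^ s))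
        ≤ 2 ^ k * x ^ k * Real.exp (-(c * x ^ s)) :=
          mul_le_mul_of_nonneg_right e1 (Real.exp_pos _).le
      _ = 2 ^ k * (x ^ k * Real.exp (-(c * x ^ s))) := by ring
      _ ≤ 2 ^ k * (1 + (N.factorial : ℝ) / c ^ N) := by
        apply mul_le_mul_of_nonneg_left _ (by positivity)
        linarith

theorem sumInv (D : ℝ) (hD : 1 ≤ D) (M : ℕ) :
    ∑ m ∈ Finset.range (M + 1), 1 / (D + m) ^ 2 ≤ 2 / D - 1 / (D + M) := by
  induction M with
  | zero =>
    simp only [zero_add, Finset.sum_range_one, Nat.cast_zero, add_zero]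
    have h1 : 0 < D := by linarith
    have h2 : 1 / D ^ 2 ≤ 1 / D := by
      apply one_div_le_one_div_of_le h1
      nlinarith
    have h3 : 2 / D = 1 / D + 1 / D := by ring
    linarith
  | succ M ih =>
    rw [Finset.sum_range_succ]
    have h0 : (0 : ℝ) ≤ M := Nat.cast_nonneg M
    have h1 : 0 < D + M := by linarith
    have h2 : 0 < D + M + 1 := by linarith
    have h3 : 1 / (D + ((M + 1 : ℕ) : ℝ)) ^ 2 ≤ 1 / (D + M) - 1 / (D + ((M + 1 : ℕ) : ℝ)) := by
      push_cast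
      rw [← add_assoc, div_sub_div _ _ h1.ne' h2.ne', div_le_div_iff₀ (by positivity)
        (by positivity)]
      nlinarith
    linarith

theorem sumT (D : ℝ) (hD : 1 ≤ D) (T : Finset ℕ) : ∑ m ∈ T, 1 / (D + m) ^ 2 ≤ 2 / D := by
  have hsub : T ⊆ Finset.range (T.sup id + 1) := by
    intro t ht
    rw [Finset.mem_range]
    have : id t ≤ T.sup id := Finset.le_sup ht
    simp only [id] at this
    omega
  have h1 : ∑ m ∈ T, 1 / (D + m) ^ 2 ≤ ∑ m ∈ Finset.range (T.sup id + 1), 1 / (D + m) ^ 2 :=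
    Finset.sum_le_sum_of_subset_of_nonneg hsub (fun i _ _ => by positivity)
  have h2 := sumInv D hD (T.sup id)
  have h3 : 0 ≤ 1 / (D + ((T.sup id : ℕ) : ℝ)) := by positivity
  linarith

theorem sumZ (f : ℕ → ℝ) (B : ℝ) (hB : ∀ T : Finset ℕ, ∑ m ∈ T, f m ≤ B) (S : Finset ℤ) :
    ∑ j ∈ S, f j.natAbs ≤ 2 * B := by
  rw [← Finset.sum_filter_add_sum_filter_not S (fun j => 0 ≤ j)]
  have h1 : ∑ j ∈ S.filter (fun j => 0 ≤ j), f j.natAbs =
      ∑ m ∈ (S.filter (fun j => 0 ≤ j)).image Int.natAbs, f m := by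
    rw [Finset.sum_image]
    intro x hx y hy hxy
    simp only [Finset.coe_filter, Set.mem_ofPred_eq] at hx hy
    omega
  have h2 : ∑ j ∈ S.filter (fun j => ¬ 0 ≤ j), f j.natAbs =
      ∑ m ∈ (S.filter (fun j => ¬ 0 ≤ j)).image Int.natAbs, f m := by
    rw [Finset.sum_image]
    intro x hx y hy hxy
    simp only [Finset.coe_filter, Set.mem_ofPred_eq] at hx hy
    omega
  rw [h1, h2]
  linarith [hB ((S.filter (fun j => 0 ≤ j)).image Int.natAbs),
    hB ((S.filter (fun j => ¬ 0 ≤ j)).image Int.natAbs)]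

theorem sumExp (c s : ℝ) (hc : 0 < c) (hs : 0 < s) : ∃ K : ℝ, 0 < K ∧ ∀ D : ℝ, 1 ≤ D →
    ∀ S : Finset ℤ, ∑ j ∈ S, Real.exp (-(c * (|(j : ℝ)| / D) ^ s)) ≤ K * D := by
  obtain ⟨K, hK, hb⟩ := bnd 2 c s hc hs
  refine ⟨4 * K, by positivity, fun D hD S => ?_⟩
  have hD0 : 0 < D := by linarith
  have h1 : ∀ j ∈ S, Real.exp (-(c * (|(j : ℝ)| / D) ^ s)) ≤
      (fun m : ℕ => K * D ^ 2 * (1 / (D + m) ^ 2)) j.natAbs := by
    intro j _
    simp only
    have h2 : ((j.natAbs : ℕ) : ℝ) = |(j : ℝ)| := by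
      rw [Nat.cast_natAbs, Int.cast_abs]
    rw [h2]
    have h3 := hb (|(j : ℝ)| / D) (by positivity)
    have h4 : (1 + |(j : ℝ)| / D) ^ 2 = (D + |(j : ℝ)|) ^ 2 / D ^ 2 := by
      field_simp
    have h5 : 0 < (D + |(j : ℝ)|) ^ 2 := by positivity
    rw [h4] at h3
    rw [mul_one_div, le_div_iff₀ h5]
    have h6 : (D + |(j : ℝ)|) ^ 2 / D ^ 2 * Real.exp (-(c * (|(j : ℝ)| / D) ^ s)) * D ^ 2 ≤
        K * D ^ 2 := mul_le_mul_of_nonneg_right h3 (by positivity)
    calc Real.exp (-(c * (|(j : ℝ)| / D) ^ s)) * (D + |(j : ℝ)|) ^ 2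
        = (D + |(j : ℝ)|) ^ 2 / D ^ 2 * Real.exp (-(c * (|(j : ℝ)| / D) ^ s)) * D ^ 2 := by
          field_simp
      _ ≤ K * D ^ 2 := h6
  refine (Finset.sum_le_sum h1).trans ?_
  refine (sumZ (fun m : ℕ => K * D ^ 2 * (1 / (D + m) ^ 2)) (K * D ^ 2 * (2 / D)) ?_ S).trans ?_
  · intro T
    rw [← Finset.mul_sum]
    exact mul_le_mul_of_nonneg_left (sumT D hD T) (by positivity)
  · apply le_of_eq
    field_simp
    ring

theorem half_exp : (16384 : ℝ) * Real.exp (-11) ≤ 1 / 2 := by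
  have h1 : (2.7 : ℝ) ≤ Real.exp 1 := by
    have := Real.exp_one_gt_d9
    linarith
  have h2 : Real.exp 11 = Real.exp 1 ^ 11 := by
    rw [← Real.exp_nat_mul]; norm_num
  have h3 : (2.7 : ℝ) ^ 11 ≤ Real.exp 11 := by
    rw [h2]; exact pow_le_pow_left₀ (by norm_num) h1 11
  have h4 : (32768 : ℝ) ≤ Real.exp 11 := le_trans (by norm_num) h3
  rw [Real.exp_neg, ← div_eq_mul_inv, div_le_iff₀ (Real.exp_pos _)]
  linarith

/-- Tiles meeting the domain. -/
theorem tileFacts (n a : ℕ) (z : ℤ × ℤ) (ha : (64 : ℤ) ^ a ≤ 2 * n)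
    (h : ∃ x ∈ domN n, x ∈ tile a z) :
    0 ≤ z.1 ∧ z.1 ≤ 3 * n ∧ -(n : ℤ) ≤ z.2 ∧ z.2 ≤ n ∧ 2 * (64 ^ a * z.1) < 4 * n + 64 ^ a := by
  obtain ⟨x, hx, h1, h2, h3, h4⟩ := h
  simp only [domN, Finset.mem_filter, Finset.mem_product, Finset.mem_Icc] at hx
  obtain ⟨⟨⟨hx1, hx2⟩, hx3, hx4⟩, hx5, hx6, -⟩ := hx
  have hP : (1 : ℤ) ≤ 64 ^ a := one_le_pow₀ (by norm_num)
  have hQ : (1 : ℤ) ≤ 16 ^ a := one_le_pow₀ (by norm_num)
  have hz1 : 0 ≤ z.1 := by
    by_contra hc
    push Not at hc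
    have : (2 * z.1 + 1) * 64 ^ a ≤ (-1) * 1 := by nlinarith only [h2, hx1, hP, hc, h1]
    omega
  have hb : 2 * (64 ^ a * z.1) < 4 * n + 64 ^ a := by
    have : (2 * z.1 - 1) * 64 ^ a = 2 * (64 ^ a * z.1) - 64 ^ a := by ring
    rw [this] at h1
    omega
  have habs : |x.2| ≤ n := by omega
  have hx2n : x.2 ≤ n := (le_abs_self _).trans habs
  have hx2m : -(n : ℤ) ≤ x.2 := by
    have := neg_abs_le x.2
    omega
  refine ⟨hz1, ?_, ?_, ?_, hb⟩
  · have : z.1 ≤ 64 ^ a * z.1 := by nlinarith only [hP, hz1]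
    omega
  · by_contra hc
    push Not at hc
    have h5 : (2 * z.2 + 1) * 16 ^ a ≤ (2 * z.2 + 1) * 1 := by nlinarith only [h4, hQ, hx2m, hc, h3]
    omega
  · by_contra hc
    push Not at hc
    have h5 : (2 * z.2 - 1) * 1 ≤ (2 * z.2 - 1) * 16 ^ a := by nlinarith only [h3, hQ, hx2n, hc, h4]
    omega

theorem pf_KSM (h_BZ : T_BZ) : T_KSM := by
  intro C c c' s hC hc hc' hs
  obtain ⟨K1, hK1, hb1⟩ := sumExp c s hc hs
  obtain ⟨K2, hK2, hb2⟩ := bnd 42 1 c' one_pos hc'
  refine ⟨65 * C * K1 * 2 + 12 * C * K2, by positivity, fun n a hn ha hna Z => ?_⟩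
  classical
  have hnaZ : (64 : ℤ) ^ a ≤ 2 * n := by exact_mod_cast hna
  have hn1 : (1 : ℝ) ≤ n := by exact_mod_cast hn
  set E := C * (n : ℝ) ^ 40 * Real.exp (-((2 * n : ℕ) : ℝ) ^ c') with hE
  have hE0 : 0 ≤ E := by positivity
  set bx : Finset (ℤ × ℤ) := Finset.Icc (0 : ℤ) (3 * n) ×ˢ Finset.Icc (-(n : ℤ)) n with hbx
  set Id : ℕ → Finset ℤ := fun d => Finset.Ico 0 (32 * 64 ^ d) ∪
    Finset.Ioc ((2 * n : ℤ) / 64 ^ a - 32 * 64 ^ d) ((2 * n : ℤ) / 64 ^ a + 1) with hId
  set g : ℕ → ℤ → ℝ := fun d j => C * 16 ^ (a + d) * Real.exp (-(11 * (d : ℝ))) *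
    Real.exp (-(c * (|(j : ℝ)| / 16 ^ d) ^ s)) with hg
  have hg0 : ∀ d j, 0 ≤ g d j := by intro d j; simp only [hg]; positivity
  have key : ∀ z ∈ Z, fail C c s E n a z ≤
      (∑ d ∈ Finset.range (2 * n + 1), if z.1 ∈ Id d then g d z.2 else 0) +
        (if z ∈ bx then E else 0) := by
    intro z _
    unfold fail
    split_ifs with hz hzb hzb
    · obtain ⟨f1, f2, f3, f4, f5⟩ := tileFacts n a z hnaZ hz
      obtain ⟨b1, b2, b3, -⟩ := h_BZ n a z ha hn hna
      obtain ⟨d, hd⟩ := Nat.exists_eq_add_of_le b1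
      have hdn : d < 2 * n + 1 := by
        have h1 : bz n a z < 64 ^ bz n a z := Nat.lt_pow_self (by norm_num)
        omega
      have hmem : z.1 ∈ Id d := by
        simp only [hId, Finset.mem_union, Finset.mem_Ico, Finset.mem_Ioc]
        have hP : (0 : ℤ) < 64 ^ a := by positivity
        have hlv : lv (bz n a z + 1) = 64 ^ a * (32 * 64 ^ d) := by
          unfold lv
          rw [Nat.add_sub_cancel, hd, pow_add]
          ring
        rw [hlv] at b2
        rcases min_lt_iff.mp b2 with h1 | h1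
        · left
          exact ⟨f1, lt_of_mul_lt_mul_left h1 hP.le⟩
        · right
          have hdiv := Int.emod_add_mul_ediv (2 * n : ℤ) (64 ^ a)
          have hr0 := Int.emod_nonneg (2 * n : ℤ) hP.ne'
          have hr1 := Int.emod_lt_of_pos (2 * n : ℤ) hP
          set q := (2 * n : ℤ) / 64 ^ a with hq
          constructor
          · have h2 : 64 ^ a * q < 64 ^ a * (z.1 + 32 * 64 ^ d) := by
              rw [mul_add]
              linarith
            have h3 := lt_of_mul_lt_mul_left h2 hP.le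
            linarith
          · have h2 : 64 ^ a * z.1 < 64 ^ a * (q + 2) := by
              rw [mul_add]
              linarith
            have h3 := lt_of_mul_lt_mul_left h2 hP.le
            linarith
      have hsingle : (if z.1 ∈ Id d then g d z.2 else 0) ≤
          ∑ d ∈ Finset.range (2 * n + 1), if z.1 ∈ Id d then g d z.2 else 0 :=
        Finset.single_le_sum (f := fun d => if z.1 ∈ Id d then g d z.2 else 0)
          (fun i _ => by
            split_ifs
            · exact hg0 _ _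
            · exact le_rfl) (Finset.mem_range.mpr hdn)
      rw [if_pos hmem] at hsingle
      have hval : C * 16 ^ bz n a z * Real.exp (-(11 * ((bz n a z : ℝ) - a))) *
          Real.exp (-(c * (|(z.2 : ℝ)| * 16 ^ a / 16 ^ bz n a z) ^ s)) = g d z.2 := by
        simp only [hg]
        rw [hd]
        have h1 : ((a + d : ℕ) : ℝ) - a = d := by push_cast; ring
        have h2 : |(z.2 : ℝ)| * 16 ^ a / 16 ^ (a + d) = |(z.2 : ℝ)| / 16 ^ d := by
          rw [pow_add]
          field_simp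
        rw [h1, h2]
      rw [hval]
      linarith
    · exfalso
      obtain ⟨f1, f2, f3, f4, f5⟩ := tileFacts n a z hnaZ hz
      exact hzb (by simp only [hbx, Finset.mem_product, Finset.mem_Icc]; exact ⟨⟨f1, f2⟩, f3, f4⟩)
    · exact add_nonneg (Finset.sum_nonneg (fun i _ => by
        split_ifs
        · exact hg0 _ _
        · exact le_rfl)) hE0
    · exact add_nonneg (Finset.sum_nonneg (fun i _ => by
        split_ifs
        · exact hg0 _ _
        · exact le_rfl)) le_rfl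
  refine (Finset.sum_le_sum key).trans ?_
  rw [Finset.sum_add_distrib, Finset.sum_comm, add_mul]
  apply add_le_add
  · -- main part
    have hd : ∀ d ∈ Finset.range (2 * n + 1),
        (∑ z ∈ Z, if z.1 ∈ Id d then g d z.2 else 0) ≤
          65 * C * K1 * 16 ^ a * (1 / 2) ^ d := by
      intro d _
      rw [← Finset.sum_filter]
      have hsub : Z.filter (fun z => z.1 ∈ Id d) ⊆ Id d ×ˢ Z.image Prod.snd := by
        intro z hz
        rw [Finset.mem_filter] at hz
        rw [Finset.mem_product]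
        exact ⟨hz.2, Finset.mem_image_of_mem _ hz.1⟩
      refine (Finset.sum_le_sum_of_subset_of_nonneg hsub (fun i _ _ => hg0 _ _)).trans ?_
      rw [Finset.sum_product]
      simp only [Finset.sum_const, nsmul_eq_mul]
      have hcard : ((Id d).card : ℝ) ≤ 65 * 64 ^ d := by
        have h1 : (Id d).card ≤ (Finset.Ico (0 : ℤ) (32 * 64 ^ d)).card +
            (Finset.Ioc ((2 * n : ℤ) / 64 ^ a - 32 * 64 ^ d) ((2 * n : ℤ) / 64 ^ a + 1)).card :=
          Finset.card_union_le _ _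
        rw [Int.card_Ico, Int.card_Ioc] at h1
        have h2 : ((2 * n : ℤ) / 64 ^ a + 1 - ((2 * n : ℤ) / 64 ^ a - 32 * 64 ^ d)).toNat =
            32 * 64 ^ d + 1 := by
          have : ((2 * n : ℤ) / 64 ^ a + 1 - ((2 * n : ℤ) / 64 ^ a - 32 * 64 ^ d)) =
            ((32 * 64 ^ d + 1 : ℕ) : ℤ) := by push_cast; ring
          rw [this, Int.toNat_natCast]
        have h3 : ((32 * 64 ^ d : ℤ) - 0).toNat = 32 * 64 ^ d := by
          have : ((32 * 64 ^ d : ℤ) - 0) = ((32 * 64 ^ d : ℕ) : ℤ) := by push_cast; ring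
          rw [this, Int.toNat_natCast]
        rw [h2, h3] at h1
        have h4 : 1 ≤ 64 ^ d := Nat.one_le_pow _ _ (by norm_num)
        have h5 : (Id d).card ≤ 65 * 64 ^ d := by omega
        exact_mod_cast h5
      have hsum : ∑ j ∈ Z.image Prod.snd, g d j ≤
          C * 16 ^ (a + d) * Real.exp (-(11 * (d : ℝ))) * (K1 * 16 ^ d) := by
        simp only [hg]
        rw [← Finset.mul_sum]
        apply mul_le_mul_of_nonneg_left _ (by positivity)
        exact hb1 (16 ^ d) (one_le_pow₀ (by norm_num)) _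
      have hexp : Real.exp (-(11 * (d : ℝ))) = Real.exp (-11) ^ d := by
        rw [← Real.exp_nat_mul]; congr 1; ring
      calc ((Id d).card : ℝ) * ∑ j ∈ Z.image Prod.snd, g d j
          ≤ (65 * 64 ^ d) * (C * 16 ^ (a + d) * Real.exp (-(11 * (d : ℝ))) * (K1 * 16 ^ d)) :=
            mul_le_mul hcard hsum (Finset.sum_nonneg (fun i _ => hg0 _ _)) (by positivity)
        _ = 65 * C * K1 * 16 ^ a * (16384 * Real.exp (-11)) ^ d := by
            rw [hexp, pow_add, mul_pow]
            have : (16384 : ℝ) ^ d = 64 ^ d * 16 ^ d * 16 ^ d := by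
              rw [← mul_pow, ← mul_pow]; norm_num
            rw [this]
            ring
        _ ≤ 65 * C * K1 * 16 ^ a * (1 / 2) ^ d := by
            apply mul_le_mul_of_nonneg_left _ (by positivity)
            exact pow_le_pow_left₀ (by positivity) half_exp d
    refine (Finset.sum_le_sum hd).trans ?_
    rw [← Finset.mul_sum]
    have h2 := sum_geometric_two_le (2 * n + 1)
    calc 65 * C * K1 * 16 ^ a * ∑ i ∈ Finset.range (2 * n + 1), (1 / (2 : ℝ)) ^ i
        ≤ 65 * C * K1 * 16 ^ a * 2 := mul_le_mul_of_nonneg_left h2 (by positivity)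
      _ = 65 * C * K1 * 2 * 16 ^ a := by ring
  · -- error part
    rw [← Finset.sum_filter]
    rw [Finset.sum_const, nsmul_eq_mul]
    have hcard : (((Z.filter (fun z => z ∈ bx)).card : ℕ) : ℝ) ≤ 12 * n ^ 2 := by
      have h1 : (Z.filter (fun z => z ∈ bx)).card ≤ bx.card :=
        Finset.card_le_card (fun z hz => (Finset.mem_filter.mp hz).2)
      have h2 : bx.card = (3 * n + 1) * (2 * n + 1) := by
        rw [hbx, Finset.card_product, Int.card_Icc, Int.card_Icc]
        congr 1 <;> omega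
      have h3 : (Z.filter (fun z => z ∈ bx)).card ≤ 12 * n ^ 2 := by
        rw [h2] at h1
        nlinarith only [hn, h1]
      exact_mod_cast h3
    have h42 : (n : ℝ) ^ 42 * Real.exp (-((2 * n : ℕ) : ℝ) ^ c') ≤ K2 := by
      have h1 := hb2 ((2 * n : ℕ) : ℝ) (by positivity)
      rw [one_mul] at h1
      refine le_trans ?_ h1
      apply mul_le_mul_of_nonneg_right _ (Real.exp_pos _).le
      apply pow_le_pow_left₀ (by positivity)
      push_cast
      linarith
    calc (((Z.filter (fun z => z ∈ bx)).card : ℕ) : ℝ) * E ≤ 12 * n ^ 2 * E :=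
          mul_le_mul_of_nonneg_right hcard hE0
      _ = 12 * C * ((n : ℝ) ^ 42 * Real.exp (-((2 * n : ℕ) : ℝ) ^ c')) := by
          rw [hE]; ring
      _ ≤ 12 * C * K2 := mul_le_mul_of_nonneg_left h42 (by positivity)
      _ ≤ 12 * C * K2 * 16 ^ a := le_mul_of_one_le_right (by positivity)
          (one_le_pow₀ (by norm_num))

end Pool.Agent.H86.ND2
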