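import Pool.Agent.H76.ND.Targets2
import Pool.Agent.H48.INS.DEP

/-! # MP_57ddd5_pr: MEG, measurability and dependence of goodness -/

open MeasureTheory ProbabilityTheory
open scoped ENNReal

namespace Pool.Agent.H86.ND2

open Pool.Agent.H99.NS Pool.Agent.H22.LPP Pool.Agent.H95.INS Pool.Agent.H76.ND

theorem conn_wt {ω ω' : Env} {o e : Site} (h : ∀ x ∈ dom o e, ω x = ω' x) {g : ℤ → ℤ}
    (hg : Conn o e g) : wt ω o.1 e.1 g = wt ω' o.1 e.1 g := by
  apply wt_congr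
  intro r hr1 hr2
  exact h _ ⟨hr1, (hg.left hr2).reach hr1.le, (hg.right hr1.le).reach hr2⟩

theorem near_congr {ω ω' : Env} {o e : Site} (h : ∀ x ∈ dom o e, ω x = ω' x) {c : ℝ}
    {g : ℤ → ℤ} (hn : Near ω o e c g) : Near ω' o e c g := by
  refine ⟨hn.1, ?_⟩
  rw [← conn_wt h hn.1, ← T_congr h]
  exact hn.2

theorem dep_RR (D : Dat) (o e : Site) : DepOn (dom o e) (fun ω => RR D ω o e) := by
  intro ω ω' h
  apply propext
  constructor
  · intro hR g hg
    exact hR g (near_congr (fun x hx => (h x hx).symm) hg)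
  · intro hR g hg
    exact hR g (near_congr h hg)

theorem splice_agree (B S : Set Site) (w : Env) {ω ω' : Env} (h : ∀ x ∈ S, ω x = ω' x) :
    ∀ x ∈ S, splice B w ω x = splice B w ω' x := by
  intro x hx
  unfold splice
  split_ifs
  · rfl
  · exact h x hx

theorem pin_dep (D : Dat) {S : Set Site} {E : Env → Prop} (hE : DepOn S E) :
    DepOn S (fun out => Pin D out E) := by
  intro ω ω' h
  simp only [Pin]
  congr 1
  ext w
  simp only [Set.mem_ofPred_eq]
  have h1 := hE _ _ (splice_agree (Bx D) S w h)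
  rw [h1]

/-- The square of half width `M`. -/
def Sq (M : ℤ) : Set Site := {x | |x.1| ≤ M ∧ |x.2| ≤ M}

theorem sq_finite (M : ℤ) : (Sq M).Finite := by
  refine Set.Finite.subset (Finset.finite_toSet (Finset.Icc (-M) M ×ˢ Finset.Icc (-M) M)) ?_
  rintro x ⟨h1, h2⟩
  rw [abs_le] at h1 h2
  simp only [Finset.coe_product, Finset.coe_Icc, Set.mem_prod, Set.mem_Icc]
  exact ⟨h1, h2⟩

theorem o1_mono (D : Dat) (hn : 0 ≤ D.n) {ω ω' : Env}
    (h : ∀ x ∈ Sq (|D.X| + 1000 * D.n), ω x = ω' x) (h1 : O1 D ω) : O1 D ω' := by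
  intro s t g hs hst ht hp hgs hgt
  have h2 : wt ω s t g = wt ω' s t g := by
    apply wt_congr
    intro r hr1 hr2
    apply h
    have h3 := (path_lip hp le_rfl hr1.le hr2).1
    have h4 := le_abs_self D.X
    have h5 : |g r| ≤ |g r - g s| + |g s| := by
      have := abs_add_le (g r - g s) (g s)
      rwa [sub_add_cancel] at this
    have h6 := abs_nonneg D.X
    refine ⟨?_, ?_⟩
    · simp only
      rw [abs_le]
      constructor <;> omega
    · simp only
      omega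
  rw [← h2]
  exact h1 s t g hs hst ht hp hgs hgt

theorem lbd_mono (D : Dat) {ω ω' : Env} {s t : ℤ}
    (h : ∀ x ∈ Sq (|D.X| + 1000 * D.n), ω x = ω' x) (hs : -(256 * D.n) ≤ s)
    (ht : t ≤ 256 * D.n) (h1 : LBd D ω s t) : LBd D ω' s t := by
  intro x y hx hy hr
  have h2 : T ω (s, x) (t, y) = T ω' (s, x) (t, y) := by
    apply T_congr
    rintro z ⟨hz1, hz2, hz3⟩
    apply h
    have h3 := hz2.1
    have h7 := reach_le hz3
    simp only at h3 hz1 h7
    have h4 := le_abs_self D.X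
    have h5 : |z.2| ≤ |z.2 - x| + |x| := by
      have := abs_add_le (z.2 - x) x
      rwa [sub_add_cancel] at this
    have h6 := abs_nonneg D.X
    refine ⟨?_, ?_⟩
    · rw [abs_le]
      constructor <;> omega
    · omega
  rw [← h2]
  exact h1 x y hx hy hr

theorem fc_dep (D : Dat) (hn : 0 ≤ D.n) {ω ω' : Env}
    (h : ∀ x ∈ Wd D (-(4 * D.n)) (4 * D.n), ω x = ω' x) (h1 : FC D ω) : FC D ω' := by
  have hsub : ∀ s t, -(4 * D.n) ≤ s → t ≤ 4 * D.n → Wd D s t ⊆ Wd D (-(4 * D.n)) (4 * D.n) := by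
    rintro s t hs ht x ⟨hx1, hx2, hx3⟩
    exact ⟨by omega, by omega, hx3⟩
  have hUB : ∀ s t c, -(4 * D.n) ≤ s → t ≤ 4 * D.n →
      DepOn (Wd D (-(4 * D.n)) (4 * D.n)) (fun ω => UB D ω s t c) := by
    intro s t c hs ht
    exact (Pool.Agent.H48.INS.pf_DEP D s t c 0 0).1.mono (hsub s t hs ht)
  have hND : ∀ s t c, -(4 * D.n) ≤ s → t ≤ 4 * D.n →
      DepOn (Wd D (-(4 * D.n)) (4 * D.n)) (fun ω => ¬ ND D ω s t c) := by
    intro s t c hs ht ω ω' h
    have := (Pool.Agent.H48.INS.pf_DEP D s t c 0 0).2.1.mono (hsub s t hs ht) ω ω' h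
    simp only at this ⊢
    rw [this]
  have hUBn : ∀ s t c, -(4 * D.n) ≤ s → t ≤ 4 * D.n →
      DepOn (Wd D (-(4 * D.n)) (4 * D.n)) (fun ω => ¬ UB D ω s t c) := by
    intro s t c hs ht ω ω' h
    have := hUB s t c hs ht ω ω' h
    simp only at this ⊢
    rw [this]
  have hCU : DepOn (Wd D (-(4 * D.n)) (4 * D.n)) (fun ω => ¬ CU D ω) := by
    intro ω ω' h
    have := (Pool.Agent.H48.INS.pf_DEP D 0 0 0 0 0).2.2.1 ω ω' h
    simp only at this ⊢
    rw [this]
  have hSm : DepOn (Wd D (-(4 * D.n)) (4 * D.n)) (fun ω => ¬ Sm D ω) := by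
    intro ω ω' h
    have e1 := hUB (-(4 * D.n)) (-(3 * D.n)) (1 / 1000) (by omega) (by omega) ω ω' h
    have e2 := hUB (-(2 * D.n)) (2 * D.n) (1 / 1000) (by omega) (by omega) ω ω' h
    have e3 := hUB (3 * D.n) (4 * D.n) (1 / 1000) (by omega) (by omega) ω ω' h
    simp only at e1 e2 e3 ⊢
    apply propext
    constructor
    · intro hc hs
      exact hc ⟨e1 ▸ hs.s1, e2 ▸ hs.s2, e3 ▸ hs.s3⟩
    · intro hc hs
      exact hc ⟨e1 ▸ hs.s1, e2 ▸ hs.s2, e3 ▸ hs.s3⟩
  have p1 := pin_dep D (hUBn (-(3 * D.n)) (-(2 * D.n)) (1001 / 1000) (by omega) (by omega)) ω ω' h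
  have p2 := pin_dep D (hUBn (2 * D.n) (3 * D.n) (1001 / 1000) (by omega) (by omega)) ω ω' h
  have p3 := pin_dep D (hND (-(3 * D.n)) (-(2 * D.n)) (974 / 1000) (by omega) (by omega)) ω ω' h
  have p4 := pin_dep D (hND (2 * D.n) (3 * D.n) (974 / 1000) (by omega) (by omega)) ω ω' h
  have p5 := pin_dep D hSm ω ω' h
  have p6 := pin_dep D hCU ω ω' h
  simp only at p1 p2 p3 p4 p5 p6
  exact ⟨p1 ▸ h1.u1, p2 ▸ h1.u2, p3 ▸ h1.d1, p4 ▸ h1.d2, p5 ▸ h1.sm, p6 ▸ h1.cu⟩

theorem good_mono (D : Dat) (o e : Site) (hn : 0 ≤ D.n) {ω ω' : Env}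
    (h : ∀ x ∈ Wd D (-(4 * D.n)) (4 * D.n) ∪ (dom o e ∪ Sq (|D.X| + 1000 * D.n)),
      ω x = ω' x) (h1 : Good D ω o e) : Good D ω' o e := by
  have hW : ∀ x ∈ Wd D (-(4 * D.n)) (4 * D.n), ω x = ω' x := fun x hx => h x (Or.inl hx)
  have hd : ∀ x ∈ dom o e, ω x = ω' x := fun x hx => h x (Or.inr (Or.inl hx))
  have hS : ∀ x ∈ Sq (|D.X| + 1000 * D.n), ω x = ω' x := fun x hx => h x (Or.inr (Or.inr hx))
  have hRF : RF D ω' o e := by
    have hdep : DepOn (dom o e) (fun ω => ¬ RR D ω o e) := by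
      intro ω ω' h
      have := dep_RR D o e ω ω' h
      simp only at this ⊢
      rw [this]
    have := pin_dep D hdep ω ω' hd
    simp only at this
    have h2 := h1.2.1
    unfold RF at h2 ⊢
    rw [← this]
    exact h2
  refine ⟨fc_dep D hn hW h1.1, hRF, ?_⟩
  obtain ⟨w, γ, g1, g2, g3⟩ := h1.2.2
  have hS' := splice_agree (Bx D) _ w hS
  have hd' := splice_agree (Bx D) _ w hd
  refine ⟨w, γ, o1_mono D hn hS' g1, ?_, ?_⟩
  · exact ⟨lbd_mono D hS' (by omega) (by omega) g2.a, lbd_mono D hS' (by omega) (by omega) g2.b,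
      lbd_mono D hS' (by omega) (by omega) g2.c, lbd_mono D hS' (by omega) (by omega) g2.d,
      lbd_mono D hS' (by omega) (by omega) g2.e⟩
  · exact ⟨near_congr hd' g3.1, g3.2⟩

theorem pf_MEG (h_FIM : T_FIM) : T_MEG := by
  intro D o e _ hn
  have hWf : (Wd D (-(4 * D.n)) (4 * D.n)).Finite :=
    (Pool.Agent.H48.INS.pf_DEP D (-(4 * D.n)) (4 * D.n) 0 0 0).2.2.2.2.2.2.1
  have hRF : DepOn (dom o e) (fun out => RF D out o e) := by
    have hdep : DepOn (dom o e) (fun ω => ¬ RR D ω o e) := by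
      intro ω ω' h
      have := dep_RR D o e ω ω' h
      simp only at this ⊢
      rw [this]
    intro ω ω' h
    have := pin_dep D hdep ω ω' h
    simp only at this
    simp only [RF]
    rw [this]
  have hfin : (Wd D (-(4 * D.n)) (4 * D.n) ∪ (dom o e ∪ Sq (|D.X| + 1000 * D.n))).Finite :=
    hWf.union ((dom_finite o e).union (sq_finite _))
  have hGood : DepOn (Wd D (-(4 * D.n)) (4 * D.n) ∪ (dom o e ∪ Sq (|D.X| + 1000 * D.n)))
      (fun out => Good D out o e) := by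
    intro ω ω' h
    apply propext
    exact ⟨good_mono D o e hn h, good_mono D o e hn (fun x hx => (h x hx).symm)⟩
  refine ⟨⟨_, dom_finite o e, hRF⟩, ⟨_, hfin, hGood⟩, h_FIM _ _ (dom_finite o e) hRF,
    h_FIM _ _ hfin hGood, ?_⟩
  intro out out' hag
  have hsp : ∀ w, splice (Bx D) w out = splice (Bx D) w out' := by
    intro w
    funext x
    unfold splice
    split_ifs with hx
    · rfl
    · exact hag x hx
  have hpin : ∀ E, Pin D out E = Pin D out' E := by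
    intro E
    unfold Pin
    simp only [hsp]
  have hFC : FC D out ↔ FC D out' := by
    constructor
    · intro h
      exact ⟨hpin _ ▸ h.u1, hpin _ ▸ h.u2, hpin _ ▸ h.d1, hpin _ ▸ h.d2, hpin _ ▸ h.sm,
        hpin _ ▸ h.cu⟩
    · intro h
      exact ⟨(hpin _).symm ▸ h.u1, (hpin _).symm ▸ h.u2, (hpin _).symm ▸ h.d1,
        (hpin _).symm ▸ h.d2, (hpin _).symm ▸ h.sm, (hpin _).symm ▸ h.cu⟩
  have hRF' : RF D out o e ↔ RF D out' o e := by
    unfold RF
    rw [hpin]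
  refine ⟨hFC, hRF', ?_⟩
  unfold Good
  rw [hFC, hRF']
  simp only [hsp]

end Pool.Agent.H86.ND2
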